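import Pool.Agent.W315.MD.Final
import Pool.Agent.X24.HB.Cover

/-!
# r-graphs without Petersen minor: averaging combined with theorems on 4-flows

`MGraph r ends`: loopless `r`-regular multigraph on `Fin n` (edges `Fin m`) with at least `r` edges
leaving every odd vertex set.  `MCover 1 r ends`: `1 * r` perfect matchings covering every edge exactly
once.  `Brick H`: deleting any two vertices of `H` leaves a connected graph with a perfect matching.
`OddMinor H G`: `H` is a minor of `G`, with branch sets that have an odd number of vertices.
`PetMinor H`: the Petersen graph is a minor of `H`.  `Heavy H S`: `S` is odd, `H[S]` is 2-connected,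
factor-critical and contains an odd cycle of length at least five, and `S` and its complement have
perfect 2-matchings.  `Sum5`, `EvenPerms`, `TwoColour`, `Few`: see the starting result `MixedBricks`.

New here (`Pool/Agent/X24/HB`):
* `Slim W H`: `H` has at most 17 vertices, or pathwidth at most five (`PW5`), or treewidth at most four
  (`TW4`).
* `Few4 W H`: the averaging condition `Few` with the bound `4` in place of `3`: there are natural
  numbers `k S` and real numbers `y S ≥ 0` such that every perfect matching of `H` has at most
  `2 * k S + 3` edges leaving the heavy set `S`, such that `y S + y T ≥ 1` whenever a perfect matching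
  has at least five edges leaving each of the disjoint heavy sets `S`, `T`, and such that the sum of
  `y S * k S / (k S + 1)` over all heavy sets is less than `4`.  For example `H` has at most eight heavy
  sets (`Eight`), or some vertex lies outside of at most four heavy sets (`FourAvoid`).

For `r ≥ 4` the averaging argument of the starting results works with the bound `4`; for `r = 3` the
starting results on nowhere-zero 4-flows (at most sixteen vertices of odd degree, pathwidth at most
five, treewidth at most four) give a 3-edge-colouring.
`Critical r p` (starting result `LargeBricks` of `MP_2d6e82_co`): the properties of a smallest `r`-graph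
`p` without Petersen minor that is not the sum of `r` perfect matchings.
-/

set_option autoImplicit false

namespace Pool.Agent.Results.MP_0c2bb8_co.FourFlowBricks

open H76FC H76TX H76TY H76TW Pool.Agent.W315.LB Pool.Agent.X24.HB

/-- (1) Let `G` be an `r`-graph such that every brick `H` that is a minor of `G` with odd branch sets
has at most 13 vertices and no Petersen minor, or is in `Sum5`, or has a vertex partition into two sides
such that any two edges inside the same side meet, or is in `EvenPerms`, `TwoColour` or `Few`, or has no
Petersen minor and satisfies `Slim` and the weaker averaging condition `Few4` (for example, has at most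
eight heavy sets, or some vertex lies outside of at most four heavy sets).  Then `G` has `r` perfect
matchings covering every edge exactly once.

(2) A smallest `r`-graph without Petersen minor that is not class 1 and has at most 17 vertices,
pathwidth at most five or treewidth at most four has `r ≥ 4`, and violates `Few4`. -/
theorem result :
    (∀ (r n m : ℕ) (ends : Fin m → Sym2 (Fin n)), MGraph r ends →
      (∀ (W : Type) [Fintype W] (H : SimpleGraph W), Brick H →
        OddMinor H (SimpleGraph.fromEdgeSet (Set.range ends)) →
        (Fintype.card W ≤ 13 ∧ ¬ PetMinor H) ∨ Sum5 H ∨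
        (∃ c : W → Bool, ∀ a b a' b' : W, H.Adj a b → H.Adj a' b' → c a = c b → c a' = c b' →
          c a = c a' → a = a' ∨ a = b' ∨ b = a' ∨ b = b') ∨
        Pool.Agent.TH100.LV.EvenPerms H.Adj ∨ Pool.Agent.TH100.LV.TwoColour H ∨
        Pool.Agent.TH583.HB.Few W H ∨
        (¬ PetMinor H ∧ Slim W H ∧ (Few4 W H ∨ Eight W H ∨ FourAvoid W H))) →
      MCover 1 r ends) ∧
    ∀ (V : Type) [Fintype V] [DecidableEq V] (r : ℕ) (p : V → V → ℕ),
      Pool.Agent.TH849.LB.Critical r p → Slim V (gr p) → 4 ≤ r ∧ ¬ Few4 V (gr p) := by
  refine ⟨fun r n m ends hG hB => ?_, fun V _ _ r p h hS => critical_slim h hS⟩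
  obtain ⟨hp, _⟩ := toR r n m ends hG
  rw [coverIff 1 r n m ends hG]
  refine cover_good (V := Fin n) hp ?_
  intro W _ H hH ho
  have hcl := hB W H hH (oddMinor_sub H _ _ id Function.injective_id (by
    intro a b hab
    have hmul : ∀ a b : Fin n, mult ends a b ≠ 0 → ∃ e, ends e = s(a, b) := by
      intro a b huv
      unfold mult at huv
      obtain ⟨e, he⟩ := Finset.card_pos.1 (Nat.pos_of_ne_zero huv)
      exact ⟨e, (Finset.mem_filter.1 he).2⟩
    unfold gr at hab
    rw [SimpleGraph.fromRel_adj] at hab
    rw [SimpleGraph.fromEdgeSet_adj]
    refine ⟨?_, hab.1⟩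
    rcases hab.2 with h1 | h1
    · obtain ⟨e, he⟩ := hmul a b (by omega)
      exact ⟨e, he⟩
    · obtain ⟨e, he⟩ := hmul b a (by omega)
      exact ⟨e, by simp only [id]; rw [he, Sym2.eq_swap]⟩) ho)
  rcases hcl with h | h | h | h | h | h | ⟨h1, h2, h3⟩
  · exact Or.inl (Or.inl (Or.inl h))
  · exact Or.inl (Or.inl (Or.inr (Or.inl h)))
  · exact Or.inl (Or.inl (Or.inr (Or.inr h)))
  · exact Or.inr (Or.inl (Or.inl h))
  · exact Or.inr (Or.inl (Or.inr h))
  · exact Or.inl (Or.inr h)
  · refine Or.inr (Or.inr ⟨h2, h1, ?_⟩)
    rcases h3 with h3 | h3 | h3
    · exact h3
    · exact few4_of_eight W H h3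
    · exact few4_of_avoid W H h3

end Pool.Agent.Results.MP_0c2bb8_co.FourFlowBricks
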